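import Pool.Agent.H79.BR.Targets

/-! CV1: shells in a cylinder, part near the axis. -/

set_option autoImplicit false

namespace Pool.Agent.H67.BR

open MeasureTheory Set FourierTransform
open Pool.Agent.H83.LS Pool.Agent.H93.AR Pool.Agent.H54.LS Pool.Agent.H14.LS Pool.Agent.H83.AR
open Pool.Agent.H79.BR
open scoped ENNReal NNReal

theorem cv1_pr_sub {n : ℕ} (x w : EE (n + 1)) : pr (x - w) = pr x - pr w := by
  ext i
  rfl

/-- the integrand on a vertical line -/
theorem cv1_line (C lam b t : ℝ) (hC : ∫⁻ z in {z : ℝ | 0 < z ∧ Real.sqrt (b ^ 2 + z ^ 2) ≤ 4 * z},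
    ENNReal.ofReal (((1 + lam * |Real.sqrt (b ^ 2 + z ^ 2) - t|) ^ 2)⁻¹) ≤
      ENNReal.ofReal (C / lam)) :
    ∫⁻ z in {z : ℝ | Real.sqrt (b ^ 2 + z ^ 2) ≤ 4 * |z|},
      ENNReal.ofReal (((1 + lam * |Real.sqrt (b ^ 2 + z ^ 2) - t|) ^ 2)⁻¹) ≤
        2 * ENNReal.ofReal (C / lam) := by
  set g : ℝ → ℝ≥0∞ := fun z =>
    ENNReal.ofReal (((1 + lam * |Real.sqrt (b ^ 2 + z ^ 2) - t|) ^ 2)⁻¹) with hg
  set P : Set ℝ := {z : ℝ | 0 < z ∧ Real.sqrt (b ^ 2 + z ^ 2) ≤ 4 * z} with hP
  set N : Set ℝ := {z : ℝ | 0 < -z ∧ Real.sqrt (b ^ 2 + z ^ 2) ≤ 4 * (-z)} with hN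
  have hsub : {z : ℝ | Real.sqrt (b ^ 2 + z ^ 2) ≤ 4 * |z|} ⊆ (P ∪ N) ∪ {0} := by
    intro z hz
    simp only [mem_ofPred_eq] at hz
    rcases lt_trichotomy z 0 with h | h | h
    · left; right
      refine ⟨by linarith, ?_⟩
      rwa [abs_of_neg h] at hz
    · right; exact h
    · left; left
      refine ⟨h, ?_⟩
      rwa [abs_of_pos h] at hz
  have hNP : ∫⁻ z in N, g z = ∫⁻ z in P, g z := by
    have h1 := (Measure.measurePreserving_neg (volume : Measure ℝ)).setLIntegral_comp_preimage_emb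
      (MeasurableEquiv.neg ℝ).measurableEmbedding g P
    rw [← h1]
    have h2 : (Neg.neg ⁻¹' P : Set ℝ) = N := by
      ext z
      simp [hP, hN]
    rw [h2]
    refine lintegral_congr fun z => ?_
    simp [hg]
  calc ∫⁻ z in {z : ℝ | Real.sqrt (b ^ 2 + z ^ 2) ≤ 4 * |z|}, g z
      ≤ ∫⁻ z in (P ∪ N) ∪ {0}, g z := lintegral_mono_set hsub
    _ ≤ (∫⁻ z in (P ∪ N), g z) + (∫⁻ z in ({0} : Set ℝ), g z) := lintegral_union_le _ _ _
    _ ≤ ((∫⁻ z in P, g z) + (∫⁻ z in N, g z)) + (∫⁻ z in ({0} : Set ℝ), g z) :=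
        add_le_add (lintegral_union_le _ _ _) le_rfl
    _ = 2 * (∫⁻ z in P, g z) := by
        rw [hNP]
        simp [two_mul]
    _ ≤ 2 * ENNReal.ofReal (C / lam) := mul_le_mul_right hC _

theorem pf_cv1 (hCSL : T_CSL) : T_CV1 := by
  obtain ⟨C, hC0, hC⟩ := hCSL
  intro n hn
  have hn0 : Nonempty (Fin n) := ⟨⟨0, by omega⟩⟩
  have hfin : volume (Metric.closedBall (0 : EE n) 1) ≠ ∞ :=
    (isCompact_closedBall (0 : EE n) 1).measure_lt_top.ne
  set V : ℝ := (volume (Metric.closedBall (0 : EE n) 1)).toReal with hV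
  refine ⟨V * (2 * C), by positivity, ?_⟩
  intro lam t δ x hlam hδ
  set S : Set (EE (n + 1)) := {w | hor (x - w) ≤ δ ∧ hor w ≤ ‖w‖ / 2} with hS
  have hSm : MeasurableSet S := by
    have h1 : Measurable (fun w : EE (n + 1) => hor (x - w)) :=
      continuous_hor.measurable.comp (measurable_const.sub measurable_id)
    refine (measurableSet_le h1 measurable_const).inter (measurableSet_le
      continuous_hor.measurable (by fun_prop))
  set g : EE (n + 1) → ℝ≥0∞ := fun w =>
    ENNReal.ofReal (((1 + lam * |‖w‖ - t|) ^ 2)⁻¹) with hg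
  have hgm : Measurable g := by
    refine Measurable.ennreal_ofReal ?_
    fun_prop
  have hjm : Measurable (fun q : EE n × ℝ => jo q.1 q.2) := continuous_jo.measurable
  have h1 : ∫⁻ w in S, g w = ∫⁻ y : EE n, ∫⁻ z : ℝ, S.indicator g (jo y z) := by
    rw [← lintegral_indicator hSm, ← (mp_jo n).lintegral_comp (hgm.indicator hSm),
      lintegral_prod]
    exact ((hgm.indicator hSm).comp hjm).aemeasurable
  have h2 : ∀ y : EE n, ∫⁻ z : ℝ, S.indicator g (jo y z) ≤
      (Metric.closedBall (pr x) δ).indicator (fun _ => 2 * ENNReal.ofReal (C / lam)) y := by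
    intro y
    by_cases hy : y ∈ Metric.closedBall (pr x) δ
    · rw [indicator_of_mem hy]
      refine le_trans ?_ (cv1_line C lam ‖y‖ t (hC lam ‖y‖ t hlam))
      have hm : MeasurableSet {z : ℝ | Real.sqrt (‖y‖ ^ 2 + z ^ 2) ≤ 4 * |z|} :=
        measurableSet_le (by fun_prop) (by fun_prop)
      rw [← lintegral_indicator hm]
      refine lintegral_mono fun z => ?_
      by_cases hz : jo y z ∈ S
      · have hnorm : ‖jo y z‖ = Real.sqrt (‖y‖ ^ 2 + z ^ 2) := by
          rw [← jo_norm_sq, Real.sqrt_sq (norm_nonneg _)]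
        have hz2 : Real.sqrt (‖y‖ ^ 2 + z ^ 2) ≤ 4 * |z| := by
          have h3 := hz.2
          rw [hor_jo, hnorm] at h3
          have h4 : 0 ≤ Real.sqrt (‖y‖ ^ 2 + z ^ 2) := Real.sqrt_nonneg _
          have h5 : Real.sqrt (‖y‖ ^ 2 + z ^ 2) ^ 2 = ‖y‖ ^ 2 + z ^ 2 :=
            Real.sq_sqrt (by positivity)
          have h6 : |z| ^ 2 = z ^ 2 := sq_abs z
          rw [← pow_le_pow_iff_left₀ h4 (by positivity) two_ne_zero]
          nlinarith [norm_nonneg y, abs_nonneg z]
        rw [indicator_of_mem hz, indicator_of_mem (show z ∈ {z : ℝ |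
          Real.sqrt (‖y‖ ^ 2 + z ^ 2) ≤ 4 * |z|} from hz2), hg]
        simp only
        rw [hnorm]
      · rw [indicator_of_notMem hz]
        exact bot_le
    · rw [indicator_of_notMem hy]
      have : ∀ z : ℝ, S.indicator g (jo y z) = 0 := by
        intro z
        refine indicator_of_notMem ?_ _
        intro hz
        apply hy
        have h3 := hz.1
        rw [Pool.Agent.H54.LS.hor_eq, cv1_pr_sub, pr_jo] at h3
        rw [Metric.mem_closedBall, dist_comm, dist_eq_norm]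
        exact h3
      simp [this]
  rw [h1]
  calc ∫⁻ y : EE n, ∫⁻ z : ℝ, S.indicator g (jo y z)
      ≤ ∫⁻ y : EE n, (Metric.closedBall (pr x) δ).indicator
          (fun _ => 2 * ENNReal.ofReal (C / lam)) y := lintegral_mono h2
    _ = 2 * ENNReal.ofReal (C / lam) * volume (Metric.closedBall (pr x) δ) := by
        rw [lintegral_indicator_const Metric.isClosed_closedBall.measurableSet]
    _ = ENNReal.ofReal (V * (2 * C) * (δ ^ n / lam)) := by
        rw [Measure.addHaar_closedBall' _ _ hδ.le, finrank_euclideanSpace_fin]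
        have hb : volume (Metric.closedBall (0 : EE n) 1) = ENNReal.ofReal V := by
          rw [hV, ENNReal.ofReal_toReal hfin]
        rw [hb, show (2 : ℝ≥0∞) = ENNReal.ofReal 2 by simp, ← ENNReal.ofReal_mul (by norm_num),
          ← ENNReal.ofReal_mul (by positivity), ← ENNReal.ofReal_mul (by positivity)]
        congr 1
        field_simp
    _ ≤ _ := le_rfl

end Pool.Agent.H67.BR
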