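import Pool.Agent.H84.B2.Targets

/-! GG1: the mirror image of GGG. -/

set_option autoImplicit false

namespace Pool.Agent.H67.BR

open MeasureTheory Set FourierTransform
open Pool.Agent.H84.B2 Pool.Agent.H84.BR Pool.Agent.H83.AR Pool.Agent.H93.AR
open Pool.Agent.H83.LS Pool.Agent.H54.LS Pool.Agent.H14.LS
open scoped ENNReal NNReal

theorem gg1_fourier_bound {d : ℕ} {f : EE d → ℂ} (ξ : EE d) : ‖𝓕 f ξ‖ ≤ ∫ y, ‖f y‖ := by
  rw [ff_eq]
  refine le_trans (norm_integral_le_integral_norm _) (le_of_eq ?_)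
  congr 1; ext y
  rw [norm_mul, norm_e, one_mul]

theorem pf_gg1 (hG : T_GGG) (hQM : T_QM) (hAQ : T_AQP) (hAQS : T_AQS) (hSW : T_SWF)
    (hJM : T_JM) : T_GG1 := by
  intro a b p η ha hb hp hab hη
  obtain ⟨Cq, hCq1, hQ⟩ := hQM a b (by omega) (by omega)
  obtain ⟨Cg, hGG⟩ := hG b a p η hb ha hp (by rwa [add_comm (b : ℝ)]) hη
  have hCq0 : 0 ≤ Cq := by linarith
  refine ⟨Cg * Real.toNNReal (Cq ^ (p - 2)), ?_⟩
  intro lam Lam L A Lam₂ c₂ f hL hlam hLL hLam hLam4 hLam2 hCT hf hsupp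
  obtain ⟨g, hgBI, hgF, hgL2, hgS⟩ := hQ Lam₂ A c₂ f hLam2 hCT hf
  obtain ⟨hfm, hfi, hfb⟩ := hf
  obtain ⟨hgm, hgi, hgb⟩ := hgBI
  have hA0 : 0 ≤ A := le_trans (norm_nonneg _) (hfb 0)
  have hgsupp : ∀ x, g x ≠ 0 → L ^ 2 ≤ Lam * ‖p1 a b x‖ :=
    hgS {r | L ^ 2 ≤ Lam * r} hsupp
  obtain ⟨q1, q2, q3, q4, q5, q6, q7, -⟩ := hAQ a b L (by omega) (by omega) hL
  obtain ⟨-, -, -, -, -, cp1, cp2, -, -, -, -, mpab, swab, -⟩ := hJM a b
  obtain ⟨-, -, -, -, -, cp1', cp2', -, -, -, -, mpba, swba, -⟩ := hJM b a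
  -- first identity
  have key : ∀ ξ, ((c₂ ‖p2 a b ξ‖ : ℝ) : ℂ) * 𝓕 (AQ a b L f) ξ = 𝓕 (AQ a b L g) ξ := by
    intro ξ
    rw [q7 f hfm hfi ⟨A, hfb⟩ ξ, q7 g hgm hgi ⟨_, hgb⟩ ξ]
    have h1 : 𝓕 g = fun ξ => (fun _ r : ℝ => ((c₂ r : ℝ) : ℂ)) ‖p1 a b ξ‖ ‖p2 a b ξ‖ * 𝓕 f ξ :=
      funext hgF
    rw [h1, q5 (𝓕 f) (fun _ r => ((c₂ r : ℝ) : ℂ)) (fourier_meas' hfi)
      ⟨_, gg1_fourier_bound⟩ ξ]
  have hid1 : ∀ t x, MM (mc a b (fun s => chi (s / Lam)) c₂ lam t) (AQ a b L f) x =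
      MM (mc a b (fun s => chi (s / Lam)) (fun _ => 1) lam t) (AQ a b L g) x := by
    intro t x
    unfold MM
    congr 1; ext ξ
    rw [← key ξ]
    unfold mc
    push_cast
    ring
  -- exchange of the blocks
  set G : EE (b + a) → ℂ := fun y => g (sw b a y) with hGdef
  have hQG : ∀ y, AQ b a L G y = AQ a b L g (sw b a y) := by
    intro y
    rw [hAQS a b L _ g (sw b a y) (by omega) (by omega) hL ⟨hgm, hgi, hgb⟩, (swba y).1]
  have hQgm : Measurable (AQ a b L g) := q1 g hgm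
  have hQgi : Integrable (AQ a b L g) := q4 g hgm hgi
  have hid2 : ∀ t x, MM (mc a b (fun s => chi (s / Lam)) (fun _ => 1) lam t) (AQ a b L g) x =
      MM (m2 b a lam Lam t) (AQ b a L G) (sw a b x) := by
    intro t x
    have h1 := (hSW a b (AQ a b L g) (by omega) (by omega) hQgm hQgi).2.1
      (mc a b (fun s => chi (s / Lam)) (fun _ => 1) lam t) (sw a b x)
    rw [(swab x).1] at h1
    rw [← h1]
    have h2 : (fun ξ : EE (b + a) => mc a b (fun s => chi (s / Lam)) (fun _ => 1) lam t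
        (sw b a ξ)) = m2 b a lam Lam t := by
      funext ξ
      obtain ⟨-, s2, s3, -⟩ := swba ξ
      unfold mc m2 mT
      rw [s2, s3, mul_one]
    have h3 : (fun y : EE (b + a) => AQ a b L g (sw b a y)) = AQ b a L G := by
      funext y
      exact (hQG y).symm
    rw [h2, h3]
  have hswm : Measurable (sw b a) := mpba.measurable
  have hGm : Measurable G := hgm.comp hswm
  have hGi : Integrable G := (mpba.integrable_comp hgi.1).mpr hgi
  have hGb : ∀ y, ‖G y‖ ≤ Cq * A := fun y => hgb _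
  have hGsupp : ∀ y, G y ≠ 0 → L ^ 2 ≤ Lam * ‖p2 b a y‖ := by
    intro y hy
    have := hgsupp _ hy
    rwa [(swba y).2.2.1] at this
  have hbound := hGG lam Lam L (Cq * A) G hL hlam hLL hLam hLam4 ⟨hGm, hGi, hGb⟩ hGsupp
  -- the integrals
  have hQGi : Integrable (AQ b a L G) := by
    have h1 : AQ b a L G = AQ a b L g ∘ sw b a := funext hQG
    rw [h1]
    exact (mpba.integrable_comp hQgi.1).mpr hQgi
  have hint : ∀ t, ∫⁻ x in {x : EE (a + b) | L ^ 2 ≤ Lam * ‖p1 a b x‖},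
      ‖MM (mc a b (fun s => chi (s / Lam)) c₂ lam t) (AQ a b L f) x‖ₑ ^ p =
      ∫⁻ x in {x : EE (b + a) | L ^ 2 ≤ Lam * ‖p2 b a x‖},
        ‖MM (m2 b a lam Lam t) (AQ b a L G) x‖ₑ ^ p := by
    intro t
    have hFm : Measurable fun x : EE (b + a) => ‖MM (m2 b a lam Lam t) (AQ b a L G) x‖ₑ ^ p := by
      have hm2 : Measurable fun q : ℝ × EE (b + a) => m2 b a lam Lam q.1 q.2 := by
        unfold m2
        refine (mT_meas lam).mul (Complex.measurable_ofReal.comp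
          (chi_smooth.continuous.measurable.comp ?_))
        exact ((cp2'.measurable.comp measurable_snd).norm).div_const _
      have h1 := MM_meas hm2 (fourier_meas' hQGi)
      exact ((h1.comp (measurable_const.prodMk measurable_id :
        Measurable fun x : EE (b + a) => (t, x))).enorm.pow_const p)
    have hS : MeasurableSet {x : EE (b + a) | L ^ 2 ≤ Lam * ‖p2 b a x‖} :=
      measurableSet_le measurable_const (cp2'.measurable.norm.const_mul Lam)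
    rw [← mpab.setLIntegral_comp_preimage hS hFm]
    have hpre : sw a b ⁻¹' {x : EE (b + a) | L ^ 2 ≤ Lam * ‖p2 b a x‖} =
        {x : EE (a + b) | L ^ 2 ≤ Lam * ‖p1 a b x‖} := by
      ext x
      simp only [mem_preimage, mem_ofPred_eq, (swab x).2.2.2]
    rw [hpre]
    refine lintegral_congr fun x => ?_
    rw [hid1, hid2]
  have hG2 : ∫⁻ x, ‖G x‖ₑ ^ 2 = ∫⁻ x, ‖g x‖ₑ ^ 2 := by
    exact mpba.lintegral_comp (f := fun x => ‖g x‖ₑ ^ 2) (hgm.enorm.pow_const 2)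
  calc ∫⁻ t in Icc (1 : ℝ) 2, ∫⁻ x in {x : EE (a + b) | L ^ 2 ≤ Lam * ‖p1 a b x‖},
      ‖MM (mc a b (fun s => chi (s / Lam)) c₂ lam t) (AQ a b L f) x‖ₑ ^ p
      = ∫⁻ t in Icc (1 : ℝ) 2, ∫⁻ x in {x : EE (b + a) | L ^ 2 ≤ Lam * ‖p2 b a x‖},
        ‖MM (m2 b a lam Lam t) (AQ b a L G) x‖ₑ ^ p := by
        refine lintegral_congr fun t => hint t
    _ ≤ Cg * ENNReal.ofReal (L ^ 2 * lam ^ η * (Cq * A) ^ (p - 2)) * ∫⁻ x, ‖G x‖ₑ ^ 2 := hbound
    _ ≤ Cg * ENNReal.ofReal (L ^ 2 * lam ^ η * (Cq * A) ^ (p - 2)) * ∫⁻ x, ‖f x‖ₑ ^ 2 := by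
        rw [hG2]
        gcongr
    _ = ((Cg * Real.toNNReal (Cq ^ (p - 2)) : ℝ≥0) : ℝ≥0∞) *
        ENNReal.ofReal (L ^ 2 * lam ^ η * A ^ (p - 2)) * ∫⁻ x, ‖f x‖ₑ ^ 2 := by
        have h1 : ENNReal.ofReal (L ^ 2 * lam ^ η * (Cq * A) ^ (p - 2)) =
            ENNReal.ofReal (Cq ^ (p - 2)) * ENNReal.ofReal (L ^ 2 * lam ^ η * A ^ (p - 2)) := by
          rw [← ENNReal.ofReal_mul (Real.rpow_nonneg hCq0 _), Real.mul_rpow hCq0 hA0]
          congr 1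
          ring
        rw [h1, ENNReal.coe_mul, ← mul_assoc, ← ENNReal.ofReal]

end Pool.Agent.H67.BR
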