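import Pool.Agent.H67.BR.KPC0
import Pool.Agent.H11.BR.CKB

/-! KPC: pointwise bound for the kernels of the pieces. -/

set_option autoImplicit false

namespace Pool.Agent.H67.BR

open MeasureTheory Set FourierTransform
open Pool.Agent.H84.B2 Pool.Agent.H84.BR Pool.Agent.H83.AR Pool.Agent.H93.AR
open Pool.Agent.H83.LS Pool.Agent.H54.LS Pool.Agent.H14.LS
open scoped ENNReal NNReal

theorem p1_sub' (a b : ℕ) (x y : EE (a + b)) : p1 a b (x - y) = p1 a b x - p1 a b y := by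
  ext i
  rfl

theorem p2_sub' (a b : ℕ) (x y : EE (a + b)) : p2 a b (x - y) = p2 a b x - p2 a b y := by
  ext i
  rfl

theorem norm_p1_le (a b : ℕ) (x : EE (a + b)) : ‖p1 a b x‖ ≤ ‖x‖ := by
  have h := Pool.Agent.H71.BR.norm_p a b x
  have h1 : ‖p1 a b x‖ ^ 2 ≤ ‖x‖ ^ 2 := by
    rw [h]
    nlinarith [sq_nonneg ‖p2 a b x‖]
  exact (pow_le_pow_iff_left₀ (norm_nonneg _) (norm_nonneg _) (by norm_num)).mp h1

theorem norm_p2_le (a b : ℕ) (x : EE (a + b)) : ‖p2 a b x‖ ≤ ‖x‖ := by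
  have h := Pool.Agent.H71.BR.norm_p a b x
  have h1 : ‖p2 a b x‖ ^ 2 ≤ ‖x‖ ^ 2 := by
    rw [h]
    nlinarith [sq_nonneg ‖p1 a b x‖]
  exact (pow_le_pow_iff_left₀ (norm_nonneg _) (norm_nonneg _) (by norm_num)).mp h1

theorem mc_MK_bound (a b : ℕ) {lam Lam₁ Lam₂ : ℝ} (t : ℝ) {c₁ c₂ : ℝ → ℝ} (hl : 0 < lam)
    (hl4 : lam ≤ 4) (hc₁ : CT Lam₁ c₁) (hc₂ : CT Lam₂ c₂) (x : EE (a + b)) :
    ‖MK (mc a b c₁ c₂ lam t) x‖ ≤
      (volume : Measure (EE (a + b))).real (Metric.closedBall 0 8) := by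
  unfold MK
  have b₁ := Pool.Agent.H71.BR.CT_abs_le hc₁
  have b₂ := Pool.Agent.H71.BR.CT_abs_le hc₂
  have h1 : ∀ ξ : EE (a + b), ‖e (inner ℝ x ξ) * mc a b c₁ c₂ lam t ξ‖ ≤
      (Metric.closedBall (0 : EE (a + b)) (2 * lam)).indicator (fun _ => (1 : ℝ)) ξ := by
    intro ξ
    rw [norm_mul, norm_e, one_mul]
    by_cases h : ξ ∈ Metric.closedBall (0 : EE (a + b)) (2 * lam)
    · rw [indicator_of_mem h]
      unfold mc mT
      rw [norm_mul, norm_mul, norm_e, one_mul, Complex.norm_real, Complex.norm_real,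
        Real.norm_eq_abs, Real.norm_eq_abs, abs_mul]
      have h1 := Pool.Agent.H83.LS.H27.abs_chi_le (‖ξ‖ / lam)
      have h2 := b₁ ‖p1 a b ξ‖
      have h3 := b₂ ‖p2 a b ξ‖
      have h4 := abs_nonneg (chi (‖ξ‖ / lam))
      have h5 := abs_nonneg (c₁ ‖p1 a b ξ‖)
      have h6 := abs_nonneg (c₂ ‖p2 a b ξ‖)
      calc |chi (‖ξ‖ / lam)| * (|c₁ ‖p1 a b ξ‖| * |c₂ ‖p2 a b ξ‖|) ≤ 1 * (1 * 1) := by
            gcongr
        _ = 1 := by norm_num
    · rw [indicator_of_notMem h]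
      rw [mem_closedBall_zero_iff, not_le] at h
      have h1 : chi (‖ξ‖ / lam) = 0 := by
        by_contra h2
        have h3 := (Pool.Agent.H83.LS.H27.chi_supp h2).2
        rw [div_lt_iff₀ hl] at h3
        linarith
      unfold mc mT
      simp [h1]
  have h2 : Integrable ((Metric.closedBall (0 : EE (a + b)) (2 * lam)).indicator
      (fun _ => (1 : ℝ))) := by
    rw [integrable_indicator_iff measurableSet_closedBall]
    exact integrableOn_const (measure_closedBall_lt_top).ne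
  refine (norm_integral_le_of_norm_le h2 (Filter.Eventually.of_forall h1)).trans ?_
  rw [integral_indicator measurableSet_closedBall]
  rw [setIntegral_const, smul_eq_mul, mul_one]
  exact measureReal_mono (Metric.closedBall_subset_closedBall (by linarith))
    (measure_closedBall_lt_top).ne

/-- three factors -/
theorem inv_pow_three_le {g A E₁ E₂ k₁ k₂ : ℝ} (N : ℕ) (hA : 0 < A) (h1 : 0 < E₁) (h2 : 0 < E₂)
    (hk₁ : 0 < k₁) (hk₂ : 0 < k₂) (gA : A ≤ g) (g1 : E₁ ≤ k₁ * g) (g2 : E₂ ≤ k₂ * g) :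
    (g ^ (3 * N))⁻¹ ≤ (k₁ * k₂) ^ N * ((A ^ N)⁻¹ * (E₁ ^ N)⁻¹ * (E₂ ^ N)⁻¹) := by
  have hg : 0 < g := lt_of_lt_of_le hA gA
  have e1 : (g ^ (3 * N))⁻¹ = (k₁ * k₂) ^ N * ((g ^ N)⁻¹ * ((k₁ * g) ^ N)⁻¹ * ((k₂ * g) ^ N)⁻¹) := by
    rw [show 3 * N = N + N + N by ring, pow_add, pow_add]
    simp only [mul_pow]
    field_simp
  rw [e1]
  gcongr

/-- the second factor -/
theorem inv_pow_split {A G E₁ E₂ k : ℝ} (N : ℕ) (hA : 1 ≤ A) (hG : 1 ≤ G) (h1 : 0 < E₁)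
    (h2 : 0 < E₂) (hk : 1 ≤ k)
    (h : (E₁ ≤ k * G ∧ E₂ ≤ k * G) ∨ (E₁ ≤ k * A ∧ E₂ ≤ k * A)) :
    (A ^ (3 * N))⁻¹ * (G ^ (3 * N))⁻¹ ≤
      (k * k) ^ N * ((A ^ N)⁻¹ * (E₁ ^ N)⁻¹ * (E₂ ^ N)⁻¹) := by
  have hA0 : 0 < A := by linarith
  have hG0 : 0 < G := by linarith
  have hk0 : 0 < k := by linarith
  have hAN : (A ^ (3 * N))⁻¹ ≤ (A ^ N)⁻¹ :=
    inv_anti₀ (by positivity) (pow_le_pow_right₀ hA (by omega))
  rcases h with ⟨g1, g2⟩ | ⟨g1, g2⟩
  · have hG2 : (G ^ (3 * N))⁻¹ ≤ (k * k) ^ N * ((E₁ ^ N)⁻¹ * (E₂ ^ N)⁻¹) := by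
      have := inv_pow_three_le (g := G) (A := 1) N one_pos h1 h2 hk0 hk0 hG g1 g2
      rwa [one_pow, inv_one, one_mul] at this
    calc (A ^ (3 * N))⁻¹ * (G ^ (3 * N))⁻¹ ≤
          (A ^ N)⁻¹ * ((k * k) ^ N * ((E₁ ^ N)⁻¹ * (E₂ ^ N)⁻¹)) :=
          mul_le_mul hAN hG2 (by positivity) (by positivity)
      _ = _ := by ring
  · have hG1 : (G ^ (3 * N))⁻¹ ≤ 1 := inv_le_one_of_one_le₀ (one_le_pow₀ hG)
    have hA2 := inv_pow_three_le (g := A) (A := A) N hA0 h1 h2 hk0 hk0 le_rfl g1 g2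
    calc (A ^ (3 * N))⁻¹ * (G ^ (3 * N))⁻¹ ≤ (A ^ (3 * N))⁻¹ * 1 :=
          mul_le_mul_of_nonneg_left hG1 (by positivity)
      _ = (A ^ (3 * N))⁻¹ := mul_one _
      _ ≤ _ := hA2

theorem pf_kpc (hSAK : T_SAK) (hPK : T_PK) (hKS : T_KS) (hKBV : T_KBV) : T_KPC := by
  intro a b N ha hb
  obtain ⟨M, C0, hC0⟩ := hKS (a + b) (3 * N) (by omega)
  obtain ⟨B, hB0, hB⟩ := hSAK a b M ha hb
  obtain ⟨C1, hC1, hnear⟩ := kpc_near hKBV a b (3 * N) ha
  obtain ⟨V, hV⟩ : ∃ V : ℝ,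
    V = (volume : Measure (EE (a + b))).real (Metric.closedBall 0 8) := ⟨_, rfl⟩
  have hV0 : 0 ≤ V := by rw [hV]; positivity
  refine ⟨|C0 * B| * 2 ^ (a + b - 1) * ((17 * 17) ^ N + 1) + V * 40 ^ N + C1 * 16 ^ N,
    by positivity, ?_⟩
  intro lam Lam₁ Lam₂ t c₁ c₂ x hl hL₁ hL₂ hc₁ hc₂ ht
  have hl0 : 0 < lam := by linarith
  have hs0 : 0 < Real.sqrt lam := Real.sqrt_pos.mpr hl0
  have hs1 : 1 ≤ Real.sqrt lam := by
    rw [Real.one_le_sqrt]; exact hl
  have hss : Real.sqrt lam * Real.sqrt lam = lam := Real.mul_self_sqrt hl0.le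
  have hsl : Real.sqrt lam ≤ lam := by
    have h0 := mul_le_mul_of_nonneg_left hs1 hs0.le
    rw [mul_one, hss] at h0
    exact h0
  have hL₁0 : 0 < Lam₁ := lt_of_lt_of_le hs0 hL₁
  have hL₂0 : 0 < Lam₂ := lt_of_lt_of_le hs0 hL₂
  -- the inverse scales
  obtain ⟨β₁, hβ₁⟩ : ∃ β₁ : ℝ, β₁ = lam / Lam₁ := ⟨_, rfl⟩
  obtain ⟨β₂, hβ₂⟩ : ∃ β₂ : ℝ, β₂ = lam / Lam₂ := ⟨_, rfl⟩
  have hβ₁0 : 0 < β₁ := by rw [hβ₁]; positivity
  have hβ₂0 : 0 < β₂ := by rw [hβ₂]; positivity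
  have hβ₁s : β₁ ≤ Real.sqrt lam := by
    rw [hβ₁, div_le_iff₀ hL₁0]
    have h0 := mul_le_mul_of_nonneg_left hL₁ hs0.le
    rwa [hss] at h0
  have hβ₂s : β₂ ≤ Real.sqrt lam := by
    rw [hβ₂, div_le_iff₀ hL₂0]
    have h0 := mul_le_mul_of_nonneg_left hL₂ hs0.le
    rwa [hss] at h0
  have hpow : 1 ≤ lam ^ (((a : ℝ) + b + 1) / 2) := Real.one_le_rpow hl (by positivity)
  obtain ⟨P, hP⟩ : ∃ P : ℝ, P = lam ^ (((a : ℝ) + b + 1) / 2) := ⟨_, rfl⟩
  rw [← hP] at hpow ⊢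
  rw [← hβ₁, ← hβ₂]
  have hx0 : 0 ≤ ‖x‖ := norm_nonneg x
  have hq₁ : ‖p1 a b x‖ ≤ ‖x‖ := norm_p1_le a b x
  have hq₂ : ‖p2 a b x‖ ≤ ‖x‖ := norm_p2_le a b x
  obtain ⟨q₁, hq₁d⟩ : ∃ q : ℝ, q = ‖p1 a b x‖ := ⟨_, rfl⟩
  obtain ⟨q₂, hq₂d⟩ : ∃ q : ℝ, q = ‖p2 a b x‖ := ⟨_, rfl⟩
  have hq₁0 : 0 ≤ q₁ := by rw [hq₁d]; exact norm_nonneg _
  have hq₂0 : 0 ≤ q₂ := by rw [hq₂d]; exact norm_nonneg _
  rw [← hq₁d] at hq₁ ⊢
  rw [← hq₂d] at hq₂ ⊢
  obtain ⟨A, hAd⟩ : ∃ A : ℝ, A = 1 + lam * |‖x‖ - t| := ⟨_, rfl⟩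
  obtain ⟨E₁, hE₁d⟩ : ∃ E : ℝ, E = 1 + β₁ * q₁ := ⟨_, rfl⟩
  obtain ⟨E₂, hE₂d⟩ : ∃ E : ℝ, E = 1 + β₂ * q₂ := ⟨_, rfl⟩
  have hA : 1 ≤ A := by
    have : 0 ≤ lam * |‖x‖ - t| := by positivity
    linarith
  have hE₁ : 1 ≤ E₁ := by
    have : 0 ≤ β₁ * q₁ := by positivity
    linarith
  have hE₂ : 1 ≤ E₂ := by
    have : 0 ≤ β₂ * q₂ := by positivity
    linarith
  rw [← hAd, ← hE₁d, ← hE₂d]
  have hA0 : 0 < A := by linarith
  have hE₁0 : 0 < E₁ := by linarith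
  have hE₂0 : 0 < E₂ := by linarith
  -- the product of the weights
  obtain ⟨W, hW⟩ : ∃ W : ℝ, W = (A ^ N)⁻¹ * (E₁ ^ N)⁻¹ * (E₂ ^ N)⁻¹ := ⟨_, rfl⟩
  have hW0 : 0 ≤ W := by rw [hW]; positivity
  have hE₁x : E₁ ≤ 1 + Real.sqrt lam * ‖x‖ := by
    rw [hE₁d]
    have := mul_le_mul hβ₁s hq₁ hq₁0 hs0.le
    linarith
  have hE₂x : E₂ ≤ 1 + Real.sqrt lam * ‖x‖ := by
    rw [hE₂d]
    have := mul_le_mul hβ₂s hq₂ hq₂0 hs0.le
    linarith
  have hAx : A ≤ 1 + lam * (‖x‖ + t) := by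
    rw [hAd]
    have h1 : |‖x‖ - t| ≤ ‖x‖ + t := by
      rw [abs_le]; constructor <;> linarith [ht.1]
    have := mul_le_mul_of_nonneg_left h1 hl0.le
    linarith
  suffices hmain : ‖MK (mc a b c₁ c₂ lam t) x‖ ≤
      (|C0 * B| * 2 ^ (a + b - 1) * ((17 * 17) ^ N + 1) + V * 40 ^ N + C1 * 16 ^ N) * P * W by
    rw [hW] at hmain
    refine hmain.trans (le_of_eq ?_)
    ring
  have hT1 : 0 ≤ |C0 * B| * 2 ^ (a + b - 1) * ((17 * 17) ^ N + 1) := by positivity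
  have hT2 : 0 ≤ V * 40 ^ N := by positivity
  have hT3 : 0 ≤ C1 * 16 ^ N := by positivity
  have hPW : W ≤ P * W := by
    calc W = 1 * W := (one_mul _).symm
      _ ≤ P * W := mul_le_mul_of_nonneg_right hpow hW0
  rcases le_or_gt ‖x‖ (1 / 4) with hxs | hxs
  · -- near the origin
    have h1 := hnear lam Lam₁ Lam₂ t c₁ c₂ x hl hL₁0 hL₂0 hc₁ hc₂ ht.1 hxs
    have hbA : A ≤ 4 * lam := by
      have h2 : lam * (‖x‖ + t) ≤ lam * 3 := mul_le_mul_of_nonneg_left (by linarith [ht.2]) hl0.le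
      linarith
    have hb1 : E₁ ≤ 2 * lam := by
      have h2 : Real.sqrt lam * ‖x‖ ≤ lam * 1 := mul_le_mul hsl (by linarith) hx0 hl0.le
      linarith
    have hb2 : E₂ ≤ 2 * lam := by
      have h2 : Real.sqrt lam * ‖x‖ ≤ lam * 1 := mul_le_mul hsl (by linarith) hx0 hl0.le
      linarith
    have h3 : (lam ^ (3 * N))⁻¹ ≤ 16 ^ N * W := by
      have h4 : A / 4 ≤ lam := by linarith
      have h5 := inv_pow_three_le (g := lam) (A := A / 4) N (by positivity) hE₁0 hE₂0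
        two_pos two_pos h4 hb1 hb2
      refine h5.trans (le_of_eq ?_)
      rw [div_pow, inv_div, hW, div_eq_mul_inv, show (16 : ℝ) ^ N = (2 * 2) ^ N * 4 ^ N by
          rw [← mul_pow]; norm_num]
      ring
    calc ‖MK (mc a b c₁ c₂ lam t) x‖ ≤ C1 * (lam ^ (3 * N))⁻¹ := h1
      _ ≤ C1 * (16 ^ N * W) := mul_le_mul_of_nonneg_left h3 hC1
      _ = C1 * 16 ^ N * W := by ring
      _ ≤ C1 * 16 ^ N * (P * W) := mul_le_mul_of_nonneg_left hPW hT3
      _ ≤ (|C0 * B| * 2 ^ (a + b - 1) * ((17 * 17) ^ N + 1) + V * 40 ^ N + C1 * 16 ^ N) *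
          (P * W) := by
          apply mul_le_mul_of_nonneg_right _ (by positivity)
          linarith
      _ = _ := by ring
  · rcases lt_or_ge (lam * ‖x‖) 1 with hR | hR
    · -- small frequencies
      have hl4 : lam ≤ 4 := by
        have h0 : lam * (1 / 4) ≤ lam * ‖x‖ := mul_le_mul_of_nonneg_left hxs.le hl0.le
        linarith
      have h1 := mc_MK_bound a b t hl0 hl4 hc₁ hc₂ x
      rw [← hV] at h1
      have hs2 : Real.sqrt lam * ‖x‖ ≤ 1 := by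
        have h0 : Real.sqrt lam * ‖x‖ ≤ lam * ‖x‖ := mul_le_mul_of_nonneg_right hsl hx0
        linarith
      have hbA : A ≤ 10 := by
        have h0 : lam * t ≤ 4 * 2 := mul_le_mul hl4 ht.2 (by linarith [ht.1]) (by norm_num)
        rw [mul_add] at hAx
        linarith
      have hb1 : E₁ ≤ 2 := by linarith
      have hb2 : E₂ ≤ 2 := by linarith
      have h7 : (40 ^ N : ℝ)⁻¹ ≤ W := by
        rw [hW]
        have e1 : (40 ^ N : ℝ)⁻¹ = (10 ^ N)⁻¹ * (2 ^ N)⁻¹ * (2 ^ N)⁻¹ := by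
          rw [← mul_inv, ← mul_inv, ← mul_pow, ← mul_pow]; norm_num
        rw [e1]
        gcongr
      have h8 : V ≤ V * 40 ^ N * W := by
        calc V = V * 40 ^ N * (40 ^ N : ℝ)⁻¹ := by
              rw [mul_assoc, mul_inv_cancel₀ (by positivity), mul_one]
          _ ≤ _ := mul_le_mul_of_nonneg_left h7 (by positivity)
      calc ‖MK (mc a b c₁ c₂ lam t) x‖ ≤ V := h1
        _ ≤ V * 40 ^ N * W := h8
        _ ≤ V * 40 ^ N * (P * W) := mul_le_mul_of_nonneg_left hPW hT2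
        _ ≤ (|C0 * B| * 2 ^ (a + b - 1) * ((17 * 17) ^ N + 1) + V * 40 ^ N + C1 * 16 ^ N) *
            (P * W) := by
            apply mul_le_mul_of_nonneg_right _ (by positivity)
            linarith
        _ = _ := by ring
    · -- main case
      obtain ⟨R, hRd⟩ : ∃ R : ℝ, R = lam * ‖x‖ := ⟨_, rfl⟩
      rw [← hRd] at hR
      have hxp : 0 < ‖x‖ := by linarith
      have hxne : x ≠ 0 := norm_pos_iff.mp hxp
      have hR0 : 0 < R := by linarith
      have hRl : lam / 4 ≤ R := by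
        have h0 : lam * (1 / 4) ≤ lam * ‖x‖ := mul_le_mul_of_nonneg_left hxs.le hl0.le
        rw [hRd]
        linarith
      have hsR : Real.sqrt lam / 2 ≤ Real.sqrt R := by
        rw [show Real.sqrt lam / 2 = Real.sqrt (lam / 4) by
          rw [Real.sqrt_div hl0.le, show Real.sqrt 4 = 2 by
            rw [show (4 : ℝ) = 2 ^ 2 by norm_num]; exact Real.sqrt_sq (by norm_num)]]
        exact Real.sqrt_le_sqrt hRl
      have hsR0 : 0 < Real.sqrt R := Real.sqrt_pos.mpr hR0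
      have hRα : 1 / Real.sqrt R ≤ 2 / Real.sqrt lam := by
        rw [div_le_div_iff₀ hsR0 hs0]
        linarith
      obtain ⟨u, hu⟩ : ∃ u : EE (a + b), u = -(‖x‖⁻¹ • x) := ⟨_, rfl⟩
      have hun : ‖u‖ = 1 := by
        rw [hu, norm_neg, norm_smul, norm_inv, norm_norm, inv_mul_cancel₀ hxp.ne']
      have hxu : -(‖x‖ • u) = x := by
        rw [hu, smul_neg, neg_neg, smul_smul, mul_inv_cancel₀ hxp.ne', one_smul]
      have hu1 : ‖p1 a b u‖ = q₁ / ‖x‖ := by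
        rw [hu, ← neg_smul, Pool.Agent.H71.BR.p1_smul, norm_smul, norm_neg, norm_inv, norm_norm,
          ← hq₁d]
        ring
      have hu2 : ‖p2 a b u‖ = q₂ / ‖x‖ := by
        rw [hu, ← neg_smul, Pool.Agent.H71.BR.p2_smul, norm_smul, norm_neg, norm_inv, norm_norm,
          ← hq₂d]
        ring
      obtain ⟨D, hD⟩ : ∃ D : ℝ, D = max 0 (max (q₁ / ‖x‖ - 4 / β₁) (q₂ / ‖x‖ - 4 / β₂)) :=
        ⟨_, rfl⟩
      have hD0 : 0 ≤ D := by rw [hD]; exact le_max_left _ _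
      have hDa : q₁ / ‖x‖ - 4 / β₁ ≤ D := by
        rw [hD]; exact (le_max_left _ _).trans (le_max_right _ _)
      have hDb : q₂ / ‖x‖ - 4 / β₂ ≤ D := by
        rw [hD]; exact (le_max_right _ _).trans (le_max_right _ _)
      have hsup : ∀ (s : ℝ) (w : EE (a + b)), ‖w‖ = 1 → gK a b c₁ c₂ lam (s, w) ≠ 0 →
          D ≤ ‖w - u‖ ∧ 0 ≤ ‖w + u‖ := by
        intro s w hw hg
        refine ⟨?_, norm_nonneg _⟩
        unfold gK at hg
        simp only at hg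
        have h1 := Complex.ofReal_ne_zero.1 hg
        have h2 := left_ne_zero_of_mul (left_ne_zero_of_mul h1)
        have hcs := (Pool.Agent.H83.LS.H27.chi_supp (right_ne_zero_of_mul h2)).1
        have hc1 := right_ne_zero_of_mul (left_ne_zero_of_mul h1)
        have hc2 := right_ne_zero_of_mul h1
        have key : ∀ {Lam : ℝ} {c : ℝ → ℝ} (q : ℝ), 0 < Lam → 0 ≤ q → CT Lam c →
            c (lam * (s * q)) ≠ 0 → q ≤ 4 / (lam / Lam) := by
          intro Lam c q hLam hq hc hcq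
          obtain ⟨i, hi⟩ := CT_ctf hc
          rw [hi] at hcq
          have h3 : lam * (s * q) / Lam < 2 := by
            by_contra h4
            exact hcq (ctf_zero i (not_lt.1 h4))
          rw [div_lt_iff₀ hLam] at h3
          rw [div_div_eq_mul_div, le_div_iff₀ hl0]
          have h5 : q * (1 / 2) ≤ q * s := mul_le_mul_of_nonneg_left hcs.le hq
          have h6 : lam * (q * (1 / 2)) ≤ lam * (q * s) := mul_le_mul_of_nonneg_left h5 hl0.le
          have h7 : lam * (q * s) = lam * (s * q) := by ring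
          have h8 : q * lam = 2 * (lam * (q * (1 / 2))) := by ring
          rw [h8]
          linarith
        have hw1 : ‖p1 a b w‖ ≤ 4 / β₁ := by
          rw [hβ₁]
          exact key _ hL₁0 (norm_nonneg _) hc₁ hc1
        have hw2 : ‖p2 a b w‖ ≤ 4 / β₂ := by
          rw [hβ₂]
          exact key _ hL₂0 (norm_nonneg _) hc₂ hc2
        rw [hD]
        apply max_le (norm_nonneg _)
        apply max_le
        · have h3 := norm_sub_norm_le (p1 a b u) (p1 a b w)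
          rw [← p1_sub'] at h3
          have h4 := norm_p1_le a b (u - w)
          rw [norm_sub_rev w u, ← hu1]
          linarith
        · have h3 := norm_sub_norm_le (p2 a b u) (p2 a b w)
          rw [← p2_sub'] at h3
          have h4 := norm_p2_le a b (u - w)
          rw [norm_sub_rev w u, ← hu2]
          linarith
      have hmain := hC0 (gK a b c₁ c₂ lam) (2 / Real.sqrt lam) B (lam * t) R D 0 u
        (hB lam Lam₁ Lam₂ c₁ c₂ hl hL₁ hL₂ hc₁ hc₂) hR hRα hun hD0 le_rfl hsup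
      have hMK := hPK a b lam Lam₁ Lam₂ t ‖x‖ c₁ c₂ u ha hb hl0 hc₁ hc₂ hx0 hun
      rw [hxu, ← hRd] at hMK
      rw [hMK, norm_mul, Complex.norm_real, Real.norm_eq_abs,
        abs_of_nonneg (by positivity : (0 : ℝ) ≤ lam ^ (a + b))]
      obtain ⟨G, hGd⟩ : ∃ G : ℝ, G = 1 + Real.sqrt R * D := ⟨_, rfl⟩
      have hG : 1 ≤ G := by
        have : 0 ≤ Real.sqrt R * D := by positivity
        linarith
      have hA' : 1 + |lam * t - R| = A := by
        rw [hAd, hRd, ← mul_sub, abs_mul, abs_of_pos hl0, abs_sub_comm]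
      have ht1 := ht.1
      have ht2 := ht.2
      have cmp : ∀ {β q E : ℝ}, 0 < β → β ≤ Real.sqrt lam → 0 ≤ q → E = 1 + β * q → ‖x‖ ≤ 4 →
          q / ‖x‖ - 4 / β ≤ D → E ≤ 17 * G := by
        intro β q E hβ hβs hq hE hx4 hDq
        have h1 : q / 4 ≤ q / ‖x‖ := div_le_div_of_nonneg_left hq hxp hx4
        have h2 : β / 2 * D ≤ Real.sqrt R * D := by
          apply mul_le_mul_of_nonneg_right _ hD0
          linarith
        have h3 : β / 2 * (q / 4 - 4 / β) ≤ β / 2 * D :=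
          mul_le_mul_of_nonneg_left (by linarith) (by positivity)
        have h4 : β / 2 * (q / 4 - 4 / β) = β * q / 8 - 2 := by
          field_simp
          ring
        rw [hE, hGd]
        rw [h4] at h3
        have h5 : 0 ≤ Real.sqrt R * D := by positivity
        linarith
      have far : ∀ {E : ℝ}, E ≤ 1 + Real.sqrt lam * ‖x‖ → 4 < ‖x‖ → E ≤ 17 * A := by
        intro E hE hx4
        have h1 : ‖x‖ / 2 ≤ |‖x‖ - t| := by
          rw [abs_of_pos (by linarith)]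
          linarith
        have h2 : lam * (‖x‖ / 2) ≤ lam * |‖x‖ - t| := mul_le_mul_of_nonneg_left h1 hl0.le
        have h3 : Real.sqrt lam * ‖x‖ ≤ lam * ‖x‖ := mul_le_mul_of_nonneg_right hsl hx0
        rw [hAd]
        have h4 : 0 ≤ lam * ‖x‖ := by positivity
        linarith
      have e1 : ((1 + |lam * t - R|) ^ (3 * N))⁻¹ * ((1 + Real.sqrt R * D) ^ (3 * N))⁻¹ ≤
          (17 * 17) ^ N * W := by
        rw [hA', ← hGd, hW]
        apply inv_pow_split N hA hG hE₁0 hE₂0 (by norm_num)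
        rcases le_or_gt ‖x‖ 4 with hx4 | hx4
        · left
          exact ⟨cmp hβ₁0 hβ₁s hq₁0 hE₁d hx4 hDa, cmp hβ₂0 hβ₂s hq₂0 hE₂d hx4 hDb⟩
        · right
          exact ⟨far hE₁x hx4, far hE₂x hx4⟩
      have e3 : ((1 + |lam * t + R|) ^ (3 * N))⁻¹ ≤ W := by
        have h0 : 0 < lam * t + R := by positivity
        rw [abs_of_pos h0, hW]
        have h3 : Real.sqrt lam * ‖x‖ ≤ lam * ‖x‖ := mul_le_mul_of_nonneg_right hsl hx0
        have h4 : 0 ≤ lam * t := by positivity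
        have g1 : A ≤ 1 + (lam * t + R) := by
          rw [hRd]
          linarith
        have g2 : E₁ ≤ 1 * (1 + (lam * t + R)) := by
          rw [hRd]
          linarith
        have g3 : E₂ ≤ 1 * (1 + (lam * t + R)) := by
          rw [hRd]
          linarith
        have := inv_pow_three_le (g := 1 + (lam * t + R)) (A := A) N hA0 hE₁0 hE₂0 one_pos one_pos
          g1 g2 g3
        rwa [mul_one, one_pow, one_mul] at this
      have e4 : (Real.sqrt R ^ (a + b - 1))⁻¹ ≤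
          2 ^ (a + b - 1) * (Real.sqrt lam ^ (a + b - 1))⁻¹ := by
        have h1 : (Real.sqrt lam / 2) ^ (a + b - 1) ≤ Real.sqrt R ^ (a + b - 1) :=
          pow_le_pow_left₀ (by positivity) hsR _
        refine (inv_anti₀ (by positivity) h1).trans (le_of_eq ?_)
        rw [div_pow, inv_div, div_eq_mul_inv]
      have e5 : lam ^ (a + b) * (Real.sqrt lam ^ (a + b - 1))⁻¹ = P := by
        obtain ⟨m, hm⟩ : ∃ m : ℕ, a + b = m + 1 := ⟨a + b - 1, by omega⟩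
        have hm' : (a : ℝ) + b = m + 1 := by exact_mod_cast hm
        rw [hP, hm, Nat.add_sub_cancel, hm', Real.sqrt_eq_rpow,
          ← Real.rpow_natCast (lam ^ (1 / 2 : ℝ)) m, ← Real.rpow_mul hl0.le,
          ← Real.rpow_neg hl0.le, ← Real.rpow_natCast lam (m + 1), ← Real.rpow_add hl0]
        congr 1
        push_cast
        ring
      have e6 : ‖osc (a + b) (gK a b c₁ c₂ lam) (lam * t) R u‖ ≤
          |C0 * B| * (2 ^ (a + b - 1) * (Real.sqrt lam ^ (a + b - 1))⁻¹) *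
          (((17 * 17) ^ N + 1) * W) := by
        refine hmain.trans ?_
        have h1 : ((1 + |lam * t - R|) ^ (3 * N))⁻¹ * ((1 + Real.sqrt R * D) ^ (3 * N))⁻¹ +
            ((1 + |lam * t + R|) ^ (3 * N))⁻¹ * ((1 + Real.sqrt R * 0) ^ (3 * N))⁻¹ ≤
            ((17 * 17) ^ N + 1) * W := by
          rw [mul_zero, add_zero, one_pow, inv_one, mul_one]
          linarith
        calc _ ≤ |C0 * B| * (Real.sqrt R ^ (a + b - 1))⁻¹ *
              (((1 + |lam * t - R|) ^ (3 * N))⁻¹ * ((1 + Real.sqrt R * D) ^ (3 * N))⁻¹ +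
              ((1 + |lam * t + R|) ^ (3 * N))⁻¹ * ((1 + Real.sqrt R * 0) ^ (3 * N))⁻¹) := by
              apply mul_le_mul_of_nonneg_right _ (by positivity)
              exact mul_le_mul_of_nonneg_right (le_abs_self _) (by positivity)
          _ ≤ _ := by
              apply mul_le_mul _ h1 (by positivity) (by positivity)
              exact mul_le_mul_of_nonneg_left e4 (abs_nonneg _)
      calc lam ^ (a + b) * ‖osc (a + b) (gK a b c₁ c₂ lam) (lam * t) R u‖ ≤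
          lam ^ (a + b) * (|C0 * B| * (2 ^ (a + b - 1) * (Real.sqrt lam ^ (a + b - 1))⁻¹) *
          (((17 * 17) ^ N + 1) * W)) := mul_le_mul_of_nonneg_left e6 (by positivity)
        _ = |C0 * B| * 2 ^ (a + b - 1) * ((17 * 17) ^ N + 1) *
            (lam ^ (a + b) * (Real.sqrt lam ^ (a + b - 1))⁻¹) * W := by ring
        _ = |C0 * B| * 2 ^ (a + b - 1) * ((17 * 17) ^ N + 1) * (P * W) := by
            rw [e5]; ring
        _ ≤ (|C0 * B| * 2 ^ (a + b - 1) * ((17 * 17) ^ N + 1) + V * 40 ^ N + C1 * 16 ^ N) *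
            (P * W) := by
            apply mul_le_mul_of_nonneg_right _ (by positivity)
            linarith
        _ = _ := by ring

end Pool.Agent.H67.BR
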