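import Pool.Agent.H71.BR.PK
import Pool.Agent.H69.BR.CKL

/-! KPC, part 1: the kernel of a piece near the origin. -/

set_option autoImplicit false

namespace Pool.Agent.H67.BR

open MeasureTheory Set FourierTransform
open Pool.Agent.H84.B2 Pool.Agent.H84.BR Pool.Agent.H83.AR Pool.Agent.H93.AR
open Pool.Agent.H83.LS Pool.Agent.H54.LS Pool.Agent.H14.LS
open scoped ENNReal NNReal

/-- the two cutoffs -/
noncomputable def ctf (i : Bool) : ℝ → ℝ := if i then eta0 else chi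

theorem ctf_zero (i : Bool) {s : ℝ} (h : 2 ≤ s) : ctf i s = 0 := by
  unfold ctf
  split_ifs
  · exact Pool.Agent.H69.BRC.eta_zero h
  · exact Pool.Agent.H69.BRC.chi_zero_hi h

theorem ctf_smooth (i : Bool) : ContDiff ℝ (⊤ : ℕ∞) (ctf i) := by
  unfold ctf
  split_ifs
  · unfold eta0
    exact Real.smoothTransition.contDiff.comp (by fun_prop)
  · exact Pool.Agent.H69.BRC.chi_smooth

theorem CT_ctf {Lam : ℝ} {c : ℝ → ℝ} (h : CT Lam c) : ∃ i : Bool, ∀ s, c s = ctf i (s / Lam) := by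
  rcases h with h | h
  · exact ⟨true, fun s => by rw [h]; rfl⟩
  · exact ⟨false, fun s => by rw [h]; rfl⟩

/-- the amplitude as a function on `EE 1` -/
noncomputable def kamp (n : ℕ) (i j : Bool) (q : (Fin 2 → ℝ) × EE 1) : ℂ :=
  (((q.2 0) ^ n * chi (q.2 0) * ctf i (q.2 0 * q.1 0) * ctf j (q.2 0 * q.1 1) : ℝ) : ℂ)

theorem kamp_smooth (n : ℕ) (i j : Bool) : ContDiff ℝ (⊤ : ℕ∞) (kamp n i j) := by
  unfold kamp
  have h1 : ContDiff ℝ (⊤ : ℕ∞) fun q : (Fin 2 → ℝ) × EE 1 => q.2 0 := by fun_prop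
  have h2 : ContDiff ℝ (⊤ : ℕ∞) fun q : (Fin 2 → ℝ) × EE 1 => q.1 0 := by fun_prop
  have h2' : ContDiff ℝ (⊤ : ℕ∞) fun q : (Fin 2 → ℝ) × EE 1 => q.1 1 := by fun_prop
  have h3 : ContDiff ℝ (⊤ : ℕ∞) fun q : (Fin 2 → ℝ) × EE 1 =>
      (q.2 0) ^ n * chi (q.2 0) * ctf i (q.2 0 * q.1 0) * ctf j (q.2 0 * q.1 1) :=
    (((h1.pow n).mul (Pool.Agent.H69.BRC.chi_smooth.comp h1)).mul
      ((ctf_smooth i).comp (h1.mul h2))).mul ((ctf_smooth j).comp (h1.mul h2'))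
  exact Complex.ofRealCLM.contDiff.comp h3

theorem kamp_one (hKBV : T_KBV) (n N' : ℕ) (i j : Bool) : ∃ C : ℝ, 0 ≤ C ∧
    ∀ (κ₁ κ₂ y : ℝ), 0 ≤ κ₁ → 0 ≤ κ₂ →
      ‖∫ s : ℝ, e (s * y) * ((s ^ n * chi s * ctf i (s * κ₁) * ctf j (s * κ₂) : ℝ) : ℂ)‖ *
        (1 + |y|) ^ N' ≤ C := by
  obtain ⟨C, hC⟩ := hKBV 1 2 (Icc (0 : Fin 2 → ℝ) (fun _ => 8)) univ (kamp n i j) 2 isCompact_Icc
    isOpen_univ (subset_univ _) (kamp_smooth n i j).contDiffOn (by
      intro p _ ξ hξ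
      rw [Pool.Agent.H69.BRC.norm_one] at hξ
      have h : chi (ξ 0) = 0 := by
        rcases lt_abs.1 hξ with h | h
        · exact Pool.Agent.H69.BRC.chi_zero_hi h.le
        · exact Pool.Agent.H69.BRC.chi_zero_lo (by linarith)
      unfold kamp
      simp only
      rw [h, mul_zero, zero_mul, zero_mul, Complex.ofReal_zero]) N'
  have hC0 : 0 ≤ C := by
    refine le_trans ?_ (hC 0 ⟨le_refl _, fun _ => by norm_num⟩ 0)
    positivity
  refine ⟨C, hC0, ?_⟩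
  intro κ₁ κ₂ y hκ₁ hκ₂
  by_cases h : κ₁ ≤ 8 ∧ κ₂ ≤ 8
  · have hm : (![κ₁, κ₂] : Fin 2 → ℝ) ∈ Icc (0 : Fin 2 → ℝ) (fun _ => 8) := by
      constructor
      · intro k
        fin_cases k
        · exact hκ₁
        · exact hκ₂
      · intro k
        fin_cases k
        · exact h.1
        · exact h.2
    have h1 := hC ![κ₁, κ₂] hm (EuclideanSpace.single 0 y)
    have h2 : MK (fun ξ : EE 1 => kamp n i j (![κ₁, κ₂], ξ)) (EuclideanSpace.single 0 y) =
        ∫ s : ℝ, e (s * y) *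
          ((s ^ n * chi s * ctf i (s * κ₁) * ctf j (s * κ₂) : ℝ) : ℂ) := by
      have h3 := Pool.Agent.H69.BRC.MK_one
        (fun s : ℝ => ((s ^ n * chi s * ctf i (s * κ₁) * ctf j (s * κ₂) : ℝ) : ℂ)) y
      simp only [mul_comm y] at h3
      exact h3
    rw [h2] at h1
    have h4 : ‖(EuclideanSpace.single (0 : Fin 1) y : EE 1)‖ = |y| := by
      rw [Pool.Agent.H69.BRC.norm_one]
      simp
    rwa [h4] at h1
  · have h1 : ∀ s : ℝ, e (s * y) *
        ((s ^ n * chi s * ctf i (s * κ₁) * ctf j (s * κ₂) : ℝ) : ℂ) = 0 := by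
      intro s
      rcases le_or_gt s (1 / 2) with hs | hs
      · rw [Pool.Agent.H69.BRC.chi_zero_lo hs]
        simp
      · rcases not_and_or.1 h with h' | h'
        · have : 2 ≤ s * κ₁ := by nlinarith [not_le.1 h']
          rw [ctf_zero i this]
          simp
        · have : 2 ≤ s * κ₂ := by nlinarith [not_le.1 h']
          rw [ctf_zero j this]
          simp
    simp only [h1, integral_zero, norm_zero, zero_mul]
    exact hC0

theorem MK_polar (a b : ℕ) {lam Lam₁ Lam₂ : ℝ} (t : ℝ) {c₁ c₂ : ℝ → ℝ} (x : EE (a + b))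
    (ha : 1 ≤ a) (hl : 0 < lam) (hc₁ : CT Lam₁ c₁) (hc₂ : CT Lam₂ c₂) :
    MK (mc a b c₁ c₂ lam t) x = ((lam ^ (a + b) : ℝ) : ℂ) * ∫ w : Sp (a + b), ∫ s : ℝ,
      e (s * (lam * (t + inner ℝ x (w : EE (a + b))))) *
        gK a b c₁ c₂ lam (s, (w : EE (a + b))) ∂volume ∂(sg (a + b)) := by
  have m₁ := Pool.Agent.H71.BR.CT_meas hc₁
  have m₂ := Pool.Agent.H71.BR.CT_meas hc₂
  have b₁ := Pool.Agent.H71.BR.CT_abs_le hc₁
  have b₂ := Pool.Agent.H71.BR.CT_abs_le hc₂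
  unfold MK
  have hFi : Integrable (fun ξ : EE (a + b) => e (inner ℝ x ξ) * mc a b c₁ c₂ lam t ξ) := by
    refine (Pool.Agent.H71.BR.mc_int a b m₁ m₂ b₁ b₂ hl t).norm.mono' ?_
      (Filter.Eventually.of_forall fun ξ => ?_)
    · exact ((measurable_e.comp (by fun_prop)).mul
        (Pool.Agent.H71.BR.mc_meas a b m₁ m₂ lam t)).aestronglyMeasurable
    · rw [norm_mul, norm_e, one_mul]
  rw [← integral_mp (mp_polar (a + b) (by omega)) hFi.aestronglyMeasurable]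
  have hFi' : Integrable (fun q : Sp (a + b) × Ioi (0 : ℝ) =>
      e (inner ℝ x ((q.2 : ℝ) • (q.1 : EE (a + b)))) *
        mc a b c₁ c₂ lam t ((q.2 : ℝ) • (q.1 : EE (a + b)))) ((sg (a + b)).prod (nu (a + b))) :=
    (mp_polar (a + b) (by omega)).integrable_comp_of_integrable hFi
  rw [integral_prod _ hFi', ← integral_const_mul]
  refine integral_congr_ae (Filter.Eventually.of_forall fun w => ?_)
  exact Pool.Agent.H71.BR.inner_int_pk a b c₁ c₂ ha hl x w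

theorem kpc_near (hKBV : T_KBV) (a b N : ℕ) (ha : 1 ≤ a) : ∃ C : ℝ, 0 ≤ C ∧
    ∀ (lam Lam₁ Lam₂ t : ℝ) (c₁ c₂ : ℝ → ℝ) (x : EE (a + b)), 1 ≤ lam →
    0 < Lam₁ → 0 < Lam₂ → CT Lam₁ c₁ → CT Lam₂ c₂ → 1 ≤ t → ‖x‖ ≤ 1 / 4 →
    ‖MK (mc a b c₁ c₂ lam t) x‖ ≤ C * (lam ^ N)⁻¹ := by
  have hCij : ∀ i j : Bool, ∃ C : ℝ, 0 ≤ C ∧ ∀ (κ₁ κ₂ y : ℝ), 0 ≤ κ₁ → 0 ≤ κ₂ →
      ‖∫ s : ℝ, e (s * y) *
        ((s ^ (a + b - 1) * chi s * ctf i (s * κ₁) * ctf j (s * κ₂) : ℝ) : ℂ)‖ *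
        (1 + |y|) ^ (N + (a + b)) ≤ C :=
    fun i j => kamp_one hKBV (a + b - 1) (N + (a + b)) i j
  choose K hK0 hK using hCij
  set C : ℝ := K true true + K true false + K false true + K false false with hCd
  have hKC : ∀ i j, K i j ≤ C := by
    intro i j
    have h1 := hK0 true true
    have h2 := hK0 true false
    have h3 := hK0 false true
    have h4 := hK0 false false
    cases i <;> cases j <;> linarith
  have hC0 : 0 ≤ C := (hK0 true true).trans (hKC true true)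
  set V : ℝ := (sg (a + b)).real univ with hV
  have hV0 : 0 ≤ V := measureReal_nonneg
  refine ⟨V * C * 2 ^ (N + (a + b)), by positivity, ?_⟩
  intro lam Lam₁ Lam₂ t c₁ c₂ x hlam hL₁ hL₂ hc₁ hc₂ ht hx
  have hlam0 : 0 < lam := by linarith
  obtain ⟨i, hi⟩ := CT_ctf hc₁
  obtain ⟨j, hj⟩ := CT_ctf hc₂
  rw [MK_polar a b t x ha hlam0 hc₁ hc₂, norm_mul, Complex.norm_real,
    Real.norm_of_nonneg (by positivity)]
  have hb : ∀ w : Sp (a + b), ‖∫ s : ℝ, e (s * (lam * (t + inner ℝ x (w : EE (a + b))))) *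
      gK a b c₁ c₂ lam (s, (w : EE (a + b)))‖ ≤
        C * 2 ^ (N + (a + b)) * (lam ^ (N + (a + b)))⁻¹ := by
    intro w
    have hw : ‖(w : EE (a + b))‖ = 1 := Pool.Agent.H50.BR.nsp w
    have h1 := (hK i j (lam * ‖p1 a b (w : EE (a + b))‖ / Lam₁)
      (lam * ‖p2 a b (w : EE (a + b))‖ / Lam₂)
      (lam * (t + inner ℝ x (w : EE (a + b)))) (by positivity) (by positivity)).trans (hKC i j)
    have h2 : ∀ s : ℝ, gK a b c₁ c₂ lam (s, (w : EE (a + b))) =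
        ((s ^ (a + b - 1) * chi s * ctf i (s * (lam * ‖p1 a b (w : EE (a + b))‖ / Lam₁)) *
          ctf j (s * (lam * ‖p2 a b (w : EE (a + b))‖ / Lam₂)) : ℝ) : ℂ) := by
      intro s
      unfold gK
      simp only
      rw [hi, hj]
      have e1 : lam * (s * ‖p1 a b (w : EE (a + b))‖) / Lam₁ =
          s * (lam * ‖p1 a b (w : EE (a + b))‖ / Lam₁) := by ring
      have e2 : lam * (s * ‖p2 a b (w : EE (a + b))‖) / Lam₂ =
          s * (lam * ‖p2 a b (w : EE (a + b))‖ / Lam₂) := by ring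
      rw [e1, e2]
    simp only [h2]
    have h3 : |inner ℝ x (w : EE (a + b))| ≤ 1 / 4 := by
      refine (abs_real_inner_le_norm _ _).trans ?_
      rw [hw, mul_one]
      exact hx
    have h4 : lam / 2 ≤ 1 + |lam * (t + inner ℝ x (w : EE (a + b)))| := by
      have h5 := (abs_le.1 h3).1
      have h6 : lam * (3 / 4) ≤ lam * (t + inner ℝ x (w : EE (a + b))) :=
        mul_le_mul_of_nonneg_left (by linarith) hlam0.le
      have h7 := le_abs_self (lam * (t + inner ℝ x (w : EE (a + b))))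
      linarith
    have h5 : (lam / 2) ^ (N + (a + b)) ≤
        (1 + |lam * (t + inner ℝ x (w : EE (a + b)))|) ^ (N + (a + b)) :=
      pow_le_pow_left₀ (by positivity) h4 _
    have h6 : (0 : ℝ) < (lam / 2) ^ (N + (a + b)) := by positivity
    have h7 := (mul_le_mul_of_nonneg_left h5 (norm_nonneg _)).trans h1
    rw [← le_div_iff₀ h6] at h7
    refine h7.trans (le_of_eq ?_)
    rw [div_pow, div_div_eq_mul_div]
    rw [div_eq_mul_inv]
  have h1 := norm_integral_le_of_norm_le_const (μ := sg (a + b)) (Filter.Eventually.of_forall hb)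
  calc lam ^ (a + b) * ‖∫ w : Sp (a + b), ∫ s : ℝ,
        e (s * (lam * (t + inner ℝ x (w : EE (a + b))))) *
          gK a b c₁ c₂ lam (s, (w : EE (a + b))) ∂volume ∂(sg (a + b))‖
      ≤ lam ^ (a + b) * (C * 2 ^ (N + (a + b)) * (lam ^ (N + (a + b)))⁻¹ * V) :=
        mul_le_mul_of_nonneg_left h1 (by positivity)
    _ = V * C * 2 ^ (N + (a + b)) * (lam ^ N)⁻¹ * (lam ^ (a + b) * (lam ^ (a + b))⁻¹) := by
        rw [pow_add lam N (a + b), mul_inv]
        ring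
    _ = V * C * 2 ^ (N + (a + b)) * (lam ^ N)⁻¹ := by
        rw [mul_inv_cancel₀ (by positivity), mul_one]

end Pool.Agent.H67.BR
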