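import Pool.Agent.H83.AR.Targets2

/-! LI: pointwise limits of `MM m` along truncations. -/

set_option autoImplicit false

namespace Pool.Agent.H67.BR

open MeasureTheory Set FourierTransform Filter
open Pool.Agent.H83.LS Pool.Agent.H93.AR Pool.Agent.H54.LS Pool.Agent.H14.LS Pool.Agent.H83.AR
open scoped ENNReal NNReal

/-- `MM m` is Lipschitz in `L^1` -/
theorem li_lip {d : ℕ} {m f g : EE d → ℂ} (hm : Integrable m) (hf : Integrable f)
    (hg : Integrable g) (x : EE d) :
    ‖MM m f x - MM m g x‖ ≤ (∫ ξ, ‖m ξ‖) * ∫ y, ‖f y - g y‖ := by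
  have hb : ∀ z, ‖MK m z‖ ≤ ∫ ξ, ‖m ξ‖ := by
    intro z
    unfold MK
    refine le_trans (norm_integral_le_integral_norm _) (le_of_eq ?_)
    congr 1; ext ξ
    rw [norm_mul, norm_e, one_mul]
  have hI : ∀ h : EE d → ℂ, Integrable h → Integrable fun y => MK m (x - y) * h y := by
    intro h hh
    apply hh.bdd_mul (c := ∫ ξ, ‖m ξ‖)
    · exact ((MK_continuous hm).comp
        (continuous_const.sub continuous_id)).aestronglyMeasurable
    · exact Eventually.of_forall fun y => hb _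
  rw [MM_conv hm hf, MM_conv hm hg, ← integral_sub (hI f hf) (hI g hg), ← integral_const_mul]
  refine norm_integral_le_of_norm_le ((hf.sub hg).norm.const_mul _) (Eventually.of_forall fun y => ?_)
  rw [← mul_sub, norm_mul]
  exact mul_le_mul_of_nonneg_right (hb _) (norm_nonneg _)

/-- truncations converge in `L^1` -/
theorem li_trunc {d : ℕ} {f : EE d → ℂ} (hf : Integrable f) :
    Tendsto (fun k : ℕ => ∫ y, ‖f y - (Metric.closedBall (0 : EE d) (k : ℝ)).indicator f y‖)
      atTop (nhds 0) := by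
  have h0 : (0 : ℝ) = ∫ y : EE d, (0 : ℝ) := by simp
  rw [h0]
  refine tendsto_integral_of_dominated_convergence (fun y => ‖f y‖) ?_ hf.norm ?_ ?_
  · intro k
    exact (hf.1.sub (hf.1.indicator Metric.isClosed_closedBall.measurableSet)).norm
  · intro k
    refine Eventually.of_forall fun y => ?_
    rw [norm_norm]
    by_cases hy : y ∈ Metric.closedBall (0 : EE d) (k : ℝ)
    · rw [indicator_of_mem hy, sub_self, norm_zero]
      exact norm_nonneg _
    · rw [indicator_of_notMem hy, sub_zero]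
  · refine Eventually.of_forall fun y => ?_
    refine tendsto_const_nhds.congr' ?_
    obtain ⟨K, hK⟩ := exists_nat_ge ‖y‖
    filter_upwards [eventually_ge_atTop K] with k hk
    rw [indicator_of_mem, sub_self, norm_zero]
    rw [mem_closedBall_zero_iff]
    exact le_trans hK (by exact_mod_cast hk)

theorem li_tendsto {d : ℕ} {m f : EE d → ℂ} (hm : Integrable m) (hf : Integrable f)
    (F : ℕ → EE d → ℂ) (hF : ∀ k, Integrable (F k)) (u : ℕ → ℝ) (hu : Tendsto u atTop (nhds 0))
    (hd : ∀ k, ∫ y, ‖f y - F k y‖ ≤ u k) (x : EE d) :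
    Tendsto (fun k => MM m (F k) x) atTop (nhds (MM m f x)) := by
  rw [tendsto_iff_norm_sub_tendsto_zero]
  have h1 : Tendsto (fun k => (∫ ξ, ‖m ξ‖) * u k) atTop (nhds 0) := by
    simpa using hu.const_mul (∫ ξ, ‖m ξ‖)
  refine squeeze_zero (fun k => norm_nonneg _) (fun k => ?_) h1
  rw [norm_sub_rev]
  refine le_trans (li_lip hm hf (hF k) x) ?_
  exact mul_le_mul_of_nonneg_left (hd k) (integral_nonneg fun ξ => norm_nonneg _)

theorem pf_li (hAM : T_AM) : T_LI := by
  intro n L A m f hn hL hf hmm hm x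
  obtain ⟨hfm, hfi, hfb⟩ := hf
  obtain ⟨a1, a2, a3, a4, a5, a6⟩ := hAM n L hn hL
  set B : ℕ → Set (EE (n + 1)) := fun k => Metric.closedBall (0 : EE (n + 1)) (k : ℝ) with hB
  have hBm : ∀ k, MeasurableSet (B k) := fun k => Metric.isClosed_closedBall.measurableSet
  have hkm : ∀ k, Measurable ((B k).indicator f) := fun k => hfm.indicator (hBm k)
  have hki : ∀ k, Integrable ((B k).indicator f) := fun k => hfi.indicator (hBm k)
  have hkb : ∀ k y, ‖(B k).indicator f y‖ ≤ A := fun k y =>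
    le_trans (norm_indicator_le_norm_self _ _) (hfb y)
  have ht := li_trunc hfi
  refine ⟨?_, li_tendsto hm hfi _ hki _ ht (fun k => le_rfl) x⟩
  refine li_tendsto hm (a4 _ (a1 _ hfm) (a4 _ hfm hfi)) _
    (fun k => a4 _ (a1 _ (hkm k)) (a4 _ (hkm k) (hki k))) _ ht (fun k => ?_) x
  -- the difference
  set g : EE (n + 1) → ℂ := fun y => f y - (B k).indicator f y with hg
  have hgm : Measurable g := hfm.sub (hkm k)
  have hgi : Integrable g := hfi.sub (hki k)
  have h1 : ∀ y, AL L g y = AL L f y - AL L ((B k).indicator f) y := fun y =>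
    a6 f _ hfm (hkm k) ⟨A, hfb⟩ ⟨A, hkb k⟩ y
  have h2 : ∀ y, AL L (AL L g) y = AL L (AL L f) y - AL L (AL L ((B k).indicator f)) y := by
    intro y
    have h3 : AL L g = fun y => AL L f y - AL L ((B k).indicator f) y := funext h1
    rw [h3]
    exact a6 _ _ (a1 _ hfm) (a1 _ (hkm k)) ⟨A, a2 _ A hfm hfb⟩ ⟨A, a2 _ A (hkm k) (hkb k)⟩ y
  have h4 : ∫ y, ‖AL L (AL L f) y - AL L (AL L ((B k).indicator f)) y‖ =
      ∫ y, ‖AL L (AL L g) y‖ := by
    congr 1; ext y
    rw [h2 y]
  have hGi : Integrable (AL L (AL L g)) := a4 _ (a1 _ hgm) (a4 _ hgm hgi)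
  have h5 : ∫ y, ‖AL L (AL L g) y‖ ≤ ∫ y, ‖g y‖ := by
    rw [integral_norm_eq_lintegral_enorm hGi.1, integral_norm_eq_lintegral_enorm hgi.1]
    refine ENNReal.toReal_mono hgi.2.ne ?_
    have h6 := a3 (AL L g) 1 (a1 _ hgm) le_rfl
    have h7 := a3 g 1 hgm le_rfl
    simp only [ENNReal.rpow_one] at h6 h7
    exact h6.trans h7
  rw [h4]
  exact h5

end Pool.Agent.H67.BR
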