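import Pool.Agent.H83.AR.Targets2

/-! MAI: the restricted type estimate for bounded integrable functions. -/

set_option autoImplicit false

namespace Pool.Agent.H67.BR

open MeasureTheory Set FourierTransform Filter
open Pool.Agent.H83.LS Pool.Agent.H93.AR Pool.Agent.H54.LS Pool.Agent.H14.LS Pool.Agent.H83.AR
open scoped ENNReal NNReal

/-- the Fourier transform of any function is measurable -/
theorem mai_fourier_meas {d : ℕ} (f : EE d → ℂ) : Measurable (𝓕 f) := by
  by_cases hf : Integrable f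
  · exact fourier_meas' hf
  · have h0 : 𝓕 f = fun _ => 0 := by
      funext ξ
      rw [Real.fourier_eq]
      refine integral_undef ?_
      rwa [Real.fourierIntegral_convergent_iff]
    rw [h0]
    exact measurable_const

theorem pf_mai (hMA : T_MA) (hLI : T_LI) : T_MAI := by
  intro n p η hn hp hpn hη
  obtain ⟨C, hC⟩ := hMA n p η hn hp hpn hη
  refine ⟨C, ?_⟩
  intro lam L A f hlam hL hf
  obtain ⟨hfm, hfi, hfb⟩ := hf
  have hp0 : 0 ≤ p := by linarith
  have hlam0 : 0 < lam := by linarith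
  set B : ℕ → Set (EE (n + 1)) := fun k => Metric.closedBall (0 : EE (n + 1)) (k : ℝ) with hB
  have hBm : ∀ k, MeasurableSet (B k) := fun k => Metric.isClosed_closedBall.measurableSet
  have hbcd : ∀ k, BCd A ((B k).indicator f) := by
    intro k
    refine ⟨hfm.indicator (hBm k), fun y =>
      le_trans (norm_indicator_le_norm_self _ _) (hfb y), k, fun y hy => ?_⟩
    refine indicator_of_notMem ?_ _
    rw [mem_closedBall_zero_iff]
    exact not_le.mpr hy
  set G : ℕ → ℝ × EE (n + 1) → ℝ≥0∞ := fun k q =>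
    ‖MM (mT lam q.1) (AL L (AL L ((B k).indicator f))) q.2‖ₑ ^ p with hG
  have hGm : ∀ k, Measurable (G k) := fun k =>
    (MM_meas (mT_meas lam) (mai_fourier_meas _)).enorm.pow_const _
  have hbound : ∀ k, ∫⁻ t in Icc (1 : ℝ) 2, ∫⁻ x, G k (t, x) ≤
      C * ENNReal.ofReal (L ^ 2 * lam ^ η * A ^ (p - 2)) * ∫⁻ x, ‖f x‖ₑ ^ 2 := by
    intro k
    refine le_trans (hC lam L A _ hlam hL (hbcd k)) ?_
    refine mul_le_mul_right ?_ _
    refine lintegral_mono fun x => ?_
    gcongr
    by_cases hx : x ∈ B k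
    · rw [indicator_of_mem hx]
    · rw [indicator_of_notMem hx, enorm_zero]
      exact bot_le
  have hlim : ∀ t x, Tendsto (fun k => G k (t, x)) atTop
      (nhds (‖MM (mT lam t) (AL L (AL L f)) x‖ₑ ^ p)) := by
    intro t x
    have hmm : Measurable (mT (d := n + 1) lam t) :=
      (mT_meas lam).comp (measurable_const.prodMk measurable_id)
    have h1 := (hLI n L A (mT lam t) f (by omega) hL ⟨hfm, hfi, hfb⟩ hmm
      (mT_int hlam0 t) x).1
    exact (ENNReal.continuous_rpow_const.tendsto _).comp h1.enorm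
  have hin : ∀ t, ∫⁻ x, ‖MM (mT lam t) (AL L (AL L f)) x‖ₑ ^ p ≤
      liminf (fun k => ∫⁻ x, G k (t, x)) atTop := by
    intro t
    calc ∫⁻ x, ‖MM (mT lam t) (AL L (AL L f)) x‖ₑ ^ p
        = ∫⁻ x, liminf (fun k => G k (t, x)) atTop := by
          congr 1; ext x
          exact (hlim t x).liminf_eq.symm
      _ ≤ liminf (fun k => ∫⁻ x, G k (t, x)) atTop :=
          lintegral_liminf_le fun k => (hGm k).comp (measurable_const.prodMk measurable_id)
  calc ∫⁻ t in Icc (1 : ℝ) 2, ∫⁻ x, ‖MM (mT lam t) (AL L (AL L f)) x‖ₑ ^ p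
      ≤ ∫⁻ t in Icc (1 : ℝ) 2, liminf (fun k => ∫⁻ x, G k (t, x)) atTop :=
        lintegral_mono fun t => hin t
    _ ≤ liminf (fun k => ∫⁻ t in Icc (1 : ℝ) 2, ∫⁻ x, G k (t, x)) atTop :=
        lintegral_liminf_le fun k => (hGm k).lintegral_prod_right'
    _ ≤ C * ENNReal.ofReal (L ^ 2 * lam ^ η * A ^ (p - 2)) * ∫⁻ x, ‖f x‖ₑ ^ 2 := by
        refine liminf_le_of_frequently_le' (Frequently.of_forall fun k => hbound k)

end Pool.Agent.H67.BR
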